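import Pool.Agent.E8helper58.CM.Basic

/-!
# Project CM, part CONB: links of the simplices containing the new vertex
-/

set_option autoImplicit false

namespace Pool.Agent.E8helper25.CM

open Pool.Agent.W907.SG Pool.Agent.W907.SM Pool.Agent.E8helper58.CM
open Pool.Agent.TH652.Dual (triv mem_KK_triv)
open Pool.Agent.R781.VS (con)

variable {V : Type} [Fintype V] [LinearOrder V]

/-- no cliques with `n + 1` vertices -/
theorem no_bigA {G : SimpleGraph V} {A : Set V} {n : ℕ} (hS : SphA n G A) {T : Finset V}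
    (hT : G.IsClique (T : Set V)) (hTA : (T : Set V) ⊆ A) : T.card ≤ n := by
  by_contra hn
  push Not at hn
  obtain ⟨T', hT', hc'⟩ := Finset.exists_subset_card_eq (Nat.succ_le_of_lt hn)
  have hcl : G.IsClique (T' : Set V) := hT.subset (by exact_mod_cast hT')
  obtain ⟨v, hv⟩ : T'.Nonempty := Finset.card_pos.1 (by omega)
  have h1 := hS (T'.erase v) (hcl.subset (by exact_mod_cast Finset.erase_subset v T'))
    (fun u hu => hTA (hT' (Finset.mem_of_mem_erase hu))) 0
  rw [Finset.card_erase_of_mem hv, hc'] at h1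
  rw [if_pos (by omega)] at h1
  have hvA : v ∈ A := hTA (hT' hv)
  have hvl : v ∈ A ∩ lk G (T'.erase v) := ⟨hvA, fun u hu =>
    hcl hv (Finset.mem_coe.2 (Finset.mem_of_mem_erase hu)) (Finset.ne_of_mem_erase hu).symm⟩
  have h2 : BB G (triv V) (A ∩ lk G (T'.erase v)) ∅ 0 = ZZ G (triv V) (A ∩ lk G (T'.erase v)) ∅ 0 := by
    refine le_antisymm (BB_le_ZZ _ _ _ _ _) ?_
    rintro z ⟨hz, _⟩
    rw [SetLike.mem_coe, mem_KK_triv] at hz
    refine ⟨fun T => if T = {v} then z ∅ else 0, ?_, ?_⟩
    · rw [SetLike.mem_coe, mem_KK_triv]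
      intro T hT
      refine if_neg ?_
      rintro rfl
      refine hT ⟨by simp, by simpa using hvl, by simp⟩
    · funext T
      rw [bd_apply]
      by_cases hT : T = ∅
      · subst hT
        rw [Finset.sum_eq_single v]
        · have e : (insert v ∅ : Finset V) = {v} := rfl
          have e2 : (sg v (∅ : Finset V) : ℤ) = 1 := by simp [sg]
          rw [e, if_pos rfl, e2, one_smul]
        · intro u _ hu
          rw [if_neg, smul_zero]
          intro h
          have : u ∈ ({v} : Finset V) := h ▸ Finset.mem_insert_self u ∅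
          exact hu (Finset.mem_singleton.1 this)
        · intro h
          exact absurd (by simp) h
      · rw [hz T (fun h => hT (Finset.card_eq_zero.1 h.2.2))]
        refine Finset.sum_eq_zero fun u hu => ?_
        rw [if_neg, smul_zero]
        intro h
        have h3 := congrArg Finset.card h
        rw [Finset.card_insert_of_notMem (by simpa using hu), Finset.card_singleton] at h3
        exact hT (Finset.card_eq_zero.1 (by omega))
  unfold beta at h1
  rw [h2] at h1
  omega

/-- links of links -/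
theorem sphA_link {G : SimpleGraph V} {A : Set V} {n : ℕ} (hS : SphA n G A) {S : Finset V}
    (hcl : G.IsClique (S : Set V)) (hSA : (S : Set V) ⊆ A) : SphA (n - S.card) G (A ∩ lk G S) := by
  classical
  intro T hT hTL i
  have hn := no_bigA hS hcl hSA
  have hdis : Disjoint S T := by
    rw [Finset.disjoint_left]
    intro u huS huT
    exact G.irrefl ((hTL huT).2 u huS)
  have hcl2 : G.IsClique ((S ∪ T : Finset V) : Set V) := by
    intro x hx y hy hxy
    rw [Finset.coe_union] at hx hy
    rcases hx with hx | hx <;> rcases hy with hy | hy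
    · exact hcl hx hy hxy
    · exact ((hTL hy).2 x hx).symm
    · exact (hTL hx).2 y hy
    · exact hT hx hy hxy
  have hsub : ((S ∪ T : Finset V) : Set V) ⊆ A := by
    rw [Finset.coe_union]
    exact Set.union_subset hSA (fun x hx => (hTL hx).1)
  have h1 := hS (S ∪ T) hcl2 hsub i
  have h2 : A ∩ lk G (S ∪ T) = (A ∩ lk G S) ∩ lk G T := by
    ext x
    constructor
    · rintro ⟨h3, h4⟩
      exact ⟨⟨h3, fun u hu => h4 u (Finset.mem_union_left _ hu)⟩,
        fun u hu => h4 u (Finset.mem_union_right _ hu)⟩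
    · rintro ⟨⟨h3, h4⟩, h5⟩
      refine ⟨h3, fun u hu => ?_⟩
      rcases Finset.mem_union.1 hu with h | h
      · exact h4 u h
      · exact h5 u h
  rw [h2, Finset.card_union_of_disjoint hdis] at h1
  rw [h1]
  refine if_congr ?_ rfl rfl
  omega

theorem t_CONB (h : S_MERGE) : S_CONB := by
  classical
  intro V _ _ G A n s t hS hs ht hst hQ S hcl hSA hsS i
  obtain ⟨S0, hS0⟩ : ∃ S0 : Finset V, S0 = S.erase s := ⟨_, rfl⟩
  have hSi : S = insert s S0 := by rw [hS0, Finset.insert_erase hsS]
  have hs0 : s ∉ S0 := by rw [hS0]; exact Finset.notMem_erase s S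
  have hS0S : ∀ u ∈ S0, u ∈ S := fun u hu => by rw [hSi]; exact Finset.mem_insert_of_mem hu
  have ht0 : t ∉ S0 := fun hu => (hSA (Finset.mem_coe.2 (hS0S t hu))).2 rfl
  have hne_s : ∀ u ∈ S0, u ≠ s := fun u hu e => hs0 (e ▸ hu)
  have hne_t : ∀ u ∈ S0, u ≠ t := fun u hu e => ht0 (e ▸ hu)
  have hS0A : ∀ u ∈ S0, u ∈ A := fun u hu => (hSA (Finset.mem_coe.2 (hS0S u hu))).1
  have hcard : S.card = S0.card + 1 := by rw [hSi, Finset.card_insert_of_notMem hs0]
  have hst' : s ≠ t := hst.ne
  have hcl0 : G.IsClique (S0 : Set V) := by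
    intro x hx y hy hxy
    have h1 := hcl (Finset.mem_coe.2 (hS0S x hx)) (Finset.mem_coe.2 (hS0S y hy)) hxy
    obtain ⟨_, _, _, h2 | ⟨h2, _⟩ | ⟨h2, _⟩⟩ := h1
    · exact h2
    · exact absurd h2 (hne_s x hx)
    · exact absurd h2 (hne_s y hy)
  have hadj : ∀ u ∈ S0, G.Adj s u ∨ G.Adj t u := by
    intro u hu
    have h1 := hcl (Finset.mem_coe.2 hsS) (Finset.mem_coe.2 (hS0S u hu)) (hne_s u hu).symm
    obtain ⟨_, _, _, h2 | ⟨_, h2⟩ | ⟨h2, _⟩⟩ := h1
    · exact Or.inl h2
    · exact Or.inr h2
    · exact absurd h2 (hne_s u hu)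
  -- the link
  have hlk : ∀ x, x ∈ (A \ {t}) ∩ lk (con G s t) S ↔
      (x ∈ A ∧ x ≠ s ∧ x ≠ t ∧ (G.Adj s x ∨ G.Adj t x) ∧ ∀ u ∈ S0, G.Adj x u) := by
    intro x
    constructor
    · rintro ⟨⟨hxA, hxt⟩, hx⟩
      have hxt' : x ≠ t := hxt
      obtain ⟨h1, _, _, h2⟩ := hx s hsS
      refine ⟨hxA, h1, hxt', ?_, ?_⟩
      · rcases h2 with h2 | ⟨h2, _⟩ | ⟨_, h2⟩
        · exact Or.inl h2.symm
        · exact absurd h2 h1
        · exact Or.inr h2
      · intro u hu
        obtain ⟨_, _, _, h3 | ⟨h3, _⟩ | ⟨h3, _⟩⟩ := hx u (hS0S u hu)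
        · exact h3
        · exact absurd h3 h1
        · exact absurd h3 (hne_s u hu)
    · rintro ⟨hxA, hxs, hxt, h1, h2⟩
      refine ⟨⟨hxA, hxt⟩, ?_⟩
      intro u hu
      rw [hSi, Finset.mem_insert] at hu
      rcases hu with rfl | hu
      · refine ⟨hxs, hxt, hst', ?_⟩
        rcases h1 with h1 | h1
        · exact Or.inl h1.symm
        · exact Or.inr (Or.inr ⟨rfl, h1⟩)
      · exact ⟨(h2 u hu).ne, hxt, hne_t u hu, Or.inl (h2 u hu)⟩
  have hcon : beta (con G s t) (triv V) ((A \ {t}) ∩ lk (con G s t) S) ∅ i =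
      beta G (triv V) ((A \ {t}) ∩ lk (con G s t) S) ∅ i := by
    refine beta_congr ?_ i
    intro x hx y hy
    rw [hlk] at hx hy
    constructor
    · rintro ⟨_, _, _, h2 | ⟨h2, _⟩ | ⟨h2, _⟩⟩
      · exact h2
      · exact absurd h2 hx.2.1
      · exact absurd h2 hy.2.1
    · intro h2
      exact ⟨h2.ne, hx.2.2.1, hy.2.2.1, Or.inl h2⟩
  rw [hcon]
  by_cases hall_s : ∀ u ∈ S0, G.Adj s u
  · by_cases hall_t : ∀ u ∈ S0, G.Adj t u
    · -- case 1
      have hL := sphA_link hS hcl0 (fun u hu => hS0A u hu)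
      have hn := no_bigA hS hcl0 (fun u hu => hS0A u hu)
      have hsL : s ∈ A ∩ lk G S0 := ⟨hs, hall_s⟩
      have htL : t ∈ A ∩ lk G S0 := ⟨ht, hall_t⟩
      have hQL : NoSqA G (A ∩ lk G S0) s t := fun x hx y hy => hQ x hx.1 y hy.1
      have h1 := h V G (A ∩ lk G S0) (n - S0.card) s t hL hsL htL hst hQL i
      have h2 : (A \ {t}) ∩ lk (con G s t) S =
          ((A ∩ lk G S0) ∩ (G.neighborSet s ∪ G.neighborSet t)) \ {s, t} := by
        ext x
        rw [hlk]
        constructor
        · rintro ⟨h3, h4, h5, h6, h7⟩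
          refine ⟨⟨⟨h3, h7⟩, h6⟩, ?_⟩
          rintro (h8 | h8)
          · exact h4 h8
          · exact h5 h8
        · rintro ⟨⟨⟨h3, h7⟩, h6⟩, h8⟩
          exact ⟨h3, fun e => h8 (Or.inl e), fun e => h8 (Or.inr e), h6, h7⟩
      rw [h2, h1, hcard]
      refine if_congr ?_ rfl rfl
      omega
    · -- case 2
      push Not at hall_t
      obtain ⟨u0, hu0, hu0t⟩ := hall_t
      have h2 : (A \ {t}) ∩ lk (con G s t) S = A ∩ lk G S := by
        ext x
        rw [hlk]
        constructor
        · rintro ⟨h3, h4, h5, h6, h7⟩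
          refine ⟨h3, ?_⟩
          have hsx : G.Adj s x := by
            by_contra hsx
            have htx : G.Adj t x := h6.resolve_left hsx
            exact hQ u0 (hS0A u0 hu0) x h3 (hall_s u0 hu0) hu0t (hne_t u0 hu0) htx hsx h4
              (h7 u0 hu0).symm
          intro u hu
          rw [hSi, Finset.mem_insert] at hu
          rcases hu with rfl | hu
          · exact hsx.symm
          · exact h7 u hu
        · rintro ⟨h3, h4⟩
          have hxs : G.Adj x s := h4 s hsS
          refine ⟨h3, hxs.ne, ?_, Or.inl hxs.symm, fun u hu => h4 u (hS0S u hu)⟩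
          rintro rfl
          exact hu0t (h4 u0 (hS0S u0 hu0))
      rw [h2]
      refine hS S ?_ (fun u hu => (hSA hu).1) i
      intro x hx y hy hxy
      rw [hSi, Finset.coe_insert] at hx hy
      rcases hx with rfl | hx <;> rcases hy with rfl | hy
      · exact absurd rfl hxy
      · exact hall_s y hy
      · exact (hall_s x hx).symm
      · exact hcl0 hx hy hxy
  · -- case 3
    push Not at hall_s
    obtain ⟨u1, hu1, hu1s⟩ := hall_s
    have hu1t : G.Adj t u1 := (hadj u1 hu1).resolve_left hu1s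
    have hall_t : ∀ u ∈ S0, G.Adj t u := by
      intro u hu
      by_contra hut
      have hus : G.Adj s u := (hadj u hu).resolve_right hut
      have hne : u ≠ u1 := by
        rintro rfl
        exact hu1s hus
      exact hQ u (hS0A u hu) u1 (hS0A u1 hu1) hus hut (hne_t u hu) hu1t hu1s (hne_s u1 hu1)
        (hcl0 hu hu1 hne)
    have h2 : (A \ {t}) ∩ lk (con G s t) S = A ∩ lk G (insert t S0) := by
      ext x
      rw [hlk]
      constructor
      · rintro ⟨h3, h4, h5, h6, h7⟩
        refine ⟨h3, ?_⟩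
        have htx : G.Adj t x := by
          by_contra htx
          have hsx : G.Adj s x := h6.resolve_right htx
          exact hQ x h3 u1 (hS0A u1 hu1) hsx htx h5 hu1t hu1s (hne_s u1 hu1) (h7 u1 hu1)
        intro u hu
        rw [Finset.mem_insert] at hu
        rcases hu with rfl | hu
        · exact htx.symm
        · exact h7 u hu
      · rintro ⟨h3, h4⟩
        have hxt : G.Adj x t := h4 t (Finset.mem_insert_self _ _)
        refine ⟨h3, ?_, hxt.ne, Or.inr hxt.symm, fun u hu => h4 u (Finset.mem_insert_of_mem hu)⟩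
        rintro rfl
        exact hu1s (h4 u1 (Finset.mem_insert_of_mem hu1))
    have hc : (insert t S0).card = S.card := by
      rw [Finset.card_insert_of_notMem ht0, hcard]
    rw [h2, ← hc]
    refine hS (insert t S0) ?_ ?_ i
    · intro x hx y hy hxy
      rw [Finset.coe_insert] at hx hy
      rcases hx with rfl | hx <;> rcases hy with rfl | hy
      · exact absurd rfl hxy
      · exact hall_t y hy
      · exact (hall_t x hx).symm
      · exact hcl0 hx hy hxy
    · intro x hx
      rw [Finset.coe_insert] at hx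
      rcases hx with rfl | hx
      · exact ht
      · exact hS0A x hx

end Pool.Agent.E8helper25.CM
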